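import Pool.Agent.H447R3.KuB

/-!
# The Kunneth projectors are algebraic if they are numerically idempotent
-/

open CategoryTheory AlgebraicGeometry Finset Polynomial

universe u v

namespace Pool.Agent.Q69.KN

open Pool.Agent.H914 Pool.Agent.H447

lemma exists_poly (N : ℕ) : ∃ g q s : ℚ[X], g * g - g = (X * X - X) ^ (N + 1) * s ∧
    g - X = (X * X - X) * q := by
  set g : ℚ[X] := 1 - (1 - X ^ (N + 1)) ^ (N + 1) with hg
  have h1 : (X : ℚ[X]) ^ (N + 1) ∣ g := by
    have := sub_dvd_pow_sub_pow (1 : ℚ[X]) (1 - X ^ (N + 1)) (N + 1)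
    rw [one_pow] at this
    convert this using 1
    ring
  have h2 : (X - 1 : ℚ[X]) ∣ 1 - X ^ (N + 1) := by
    have := sub_dvd_pow_sub_pow (X : ℚ[X]) 1 (N + 1)
    rw [one_pow] at this
    rw [← dvd_neg, neg_sub]; exact this
  have h3 : (X - 1 : ℚ[X]) ^ (N + 1) ∣ 1 - g := by
    rw [hg, sub_sub_cancel]
    exact pow_dvd_pow_of_dvd h2 _
  obtain ⟨a, ha⟩ := h1
  obtain ⟨b, hb⟩ := h3
  have h4 : (X : ℚ[X]) ∣ g - X := by
    rw [ha, pow_succ']
    exact ⟨X ^ N * a - 1, by ring⟩
  have h5 : (X - 1 : ℚ[X]) ∣ g - X := by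
    have e : g - X = -(1 - g) + (1 - X) := by ring
    rw [e, hb, pow_succ']
    exact ⟨-((X - 1) ^ N * b) - 1, by ring⟩
  obtain ⟨q, hq⟩ := IsCoprime.mul_dvd (⟨1, -1, by ring⟩ : IsCoprime (X : ℚ[X]) (X - 1)) h4 h5
  refine ⟨g, q, -(a * b), ?_, ?_⟩
  · have e : g * g - g = -(g * (1 - g)) := by ring
    rw [e, hb]
    nth_rewrite 1 [ha]
    have e2 : (X * X - X : ℚ[X]) = X * (X - 1) := by ring
    rw [e2, mul_pow]; ring
  · rw [hq]; ring

section Abs

variable {K : Type*} [Field K] [CharZero K] {V : Type*} [AddCommGroup V] [Module K V]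
  [Module.Finite K V] {gr : ℕ → Submodule K V} {n : ℕ} {R : ℤ → Module.End K V → Prop}

lemma trace_idem {e : Module.End K V} (he : e * e = e) :
    ∃ m : ℕ, LinearMap.trace K V e = m ∧ (m = 0 → e = 0) := by
  have he' : IsIdempotentElem e := he
  have h1 : LinearMap.trace K V e = (Module.finrank K (LinearMap.range e) : K) :=
    (LinearMap.IsIdempotentElem.isProj_range e he').trace
  refine ⟨_, h1, fun h0 => ?_⟩
  rw [h0, Nat.cast_zero] at h1
  exact (LinearMap.IsIdempotentElem.trace_eq_zero_iff he').1 h1

lemma comm_proj (h : DirectSum.IsInternal gr) {x : Module.End K V} (hx : IsHom gr 0 x) (l : ℕ) :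
    proj h l * x = x * proj h l := by
  have := hx.scal_comm h (fun j => if j = (l : ℤ) then 1 else 0)
    (fun j => if j = (l : ℤ) then 1 else 0) (fun j => by simp)
  simpa [proj] using this

/-- Numerically trivial operators are nilpotent if the projectors have numerical representatives. -/
theorem nilp_of_rep (hR : OpAlg gr R) (h : DirectSum.IsInternal gr)
    (hbd : ∀ i, 2 * n + 1 ≤ i → gr i = ⊥) {T : ℕ → Module.End K V} (hT : ∀ i, R 0 (T i))
    (hnum : ∀ i, ∀ y, R 0 y →
      LinearMap.trace K V (par h * (T i * y)) = LinearMap.trace K V (par h * (proj h i * y)))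
    {x : Module.End K V} (hx : NumR h R 0 x) : IsNilpotent x := by
  have hsum : ∑ l ∈ range (2 * n + 1), proj h l = 1 := by
    rw [← scal_one h, scal_eq_sum h hbd]; simp
  have htr : ∀ x : Module.End K V, LinearMap.trace K V x =
      ∑ l ∈ range (2 * n + 1), LinearMap.trace K V (proj h l * x) := by
    intro x
    rw [← map_sum, ← Finset.sum_mul, hsum, one_mul]
  have hparproj : ∀ l (x : Module.End K V), LinearMap.trace K V (par h * (proj h l * x)) =
      (-1) ^ l * LinearMap.trace K V (proj h l * x) := by
    intro l x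
    rw [← mul_assoc, par_mul_proj, smul_mul_assoc, map_smul, smul_eq_mul]
  have hpm : ∀ l : ℕ, ((-1 : K)) ^ l ≠ 0 := fun l => pow_ne_zero _ (by norm_num)
  have hN : ∀ x, NumR h R 0 x → ∀ l, LinearMap.trace K V (proj h l * x) = 0 := by
    intro x hx l
    have h1 := hnum l x hx.1
    rw [str_comm h (hR.hom (hT l)), hx.2 (T l) (hR.cast (hT l) (by simp)), hparproj] at h1
    exact (mul_eq_zero.1 h1.symm).resolve_left (hpm l)
  have hpow : ∀ k : ℕ, NumR h R 0 (x ^ (k + 1)) := by
    intro k
    induction k with
    | zero => rw [zero_add, pow_one]; exact hx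
    | succ k ih => rw [pow_succ]; exact (ih.mul_right hR hx.1).cast (by simp)
  apply isNilpotent_of_trace_pow
  intro k
  rw [htr]
  exact Finset.sum_eq_zero fun l _ => hN _ (hpow k) l

/-- **All projectors from numerical idempotents.** -/
theorem kunneth_of_idem (hR : OpAlg gr R) (h : DirectSum.IsInternal gr)
    (hbd : ∀ i, 2 * n + 1 ≤ i → gr i = ⊥) {T : ℕ → Module.End K V} (hT : ∀ i, R 0 (T i))
    (hnum : ∀ i, ∀ y, R 0 y →
      LinearMap.trace K V (par h * (T i * y)) = LinearMap.trace K V (par h * (proj h i * y)))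
    (hid : ∀ i, NumR h R 0 (T i * T i - T i)) (i : ℕ) : R 0 (proj h i) := by
  have hsum : ∑ l ∈ range (2 * n + 1), proj h l = 1 := by
    rw [← scal_one h, scal_eq_sum h hbd]; simp
  have htr : ∀ x : Module.End K V, LinearMap.trace K V x =
      ∑ l ∈ range (2 * n + 1), LinearMap.trace K V (proj h l * x) := by
    intro x
    rw [← map_sum, ← Finset.sum_mul, hsum, one_mul]
  have hparproj : ∀ l (x : Module.End K V), LinearMap.trace K V (par h * (proj h l * x)) =
      (-1) ^ l * LinearMap.trace K V (proj h l * x) := by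
    intro l x
    rw [← mul_assoc, par_mul_proj, smul_mul_assoc, map_smul, smul_eq_mul]
  have hpm : ∀ l : ℕ, ((-1 : K)) ^ l ≠ 0 := fun l => pow_ne_zero _ (by norm_num)
  -- numerically trivial operators have trace zero in each degree
  have hN : ∀ x, NumR h R 0 x → ∀ l, LinearMap.trace K V (proj h l * x) = 0 := by
    intro x hx l
    have h1 := hnum l x hx.1
    rw [str_comm h (hR.hom (hT l)), hx.2 (T l) (hR.cast (hT l) (by simp)), hparproj] at h1
    exact (mul_eq_zero.1 h1.symm).resolve_left (hpm l)
  have hmulR : ∀ {x y : Module.End K V}, R 0 x → R 0 y → R 0 (x * y) := fun hx hy =>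
    hR.cast (hR.mul hx hy) (by simp)
  have hNm : ∀ {x y : Module.End K V}, NumR h R 0 x → R 0 y → NumR h R 0 (x * y) := fun hx hy =>
    (hx.mul_right hR hy).cast (by simp)
  -- idempotents
  have hexe : ∀ i, ∃ e, R 0 e ∧ e * e = e ∧ NumR h R 0 (e - T i) := by
    intro i
    set x := T i * T i - T i with hx
    have hxR : R 0 x := (hid i).1
    have hpow : ∀ k : ℕ, NumR h R 0 (x ^ (k + 1)) := by
      intro k
      induction k with
      | zero => rw [zero_add, pow_one]; exact hid i
      | succ k ih => rw [pow_succ]; exact hNm ih hxR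
    have hnil : IsNilpotent x := by
      apply isNilpotent_of_trace_pow
      intro k
      rw [htr]
      exact Finset.sum_eq_zero fun l _ => hN _ (hpow k) l
    obtain ⟨N, hxN⟩ := hnil
    obtain ⟨g, q, s, h1, h2⟩ := exists_poly N
    have hevx : ev (T i) (X * X - X) = x := by
      rw [map_sub, map_mul, ev_X]
    refine ⟨ev (T i) g, hR.ev (hT i) g, ?_, ?_⟩
    · have h3 := congrArg (ev (T i)) h1
      rw [map_sub, map_mul, map_mul, map_pow, hevx, pow_succ, hxN, zero_mul, zero_mul,
        sub_eq_zero] at h3
      exact h3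
    · have h3 := congrArg (ev (T i)) h2
      rw [map_sub, map_mul, hevx, ev_X] at h3
      rw [h3]
      exact hNm (hid i) (hR.ev (hT i) q)
  choose e heR hee heT using hexe
  have hcomm : ∀ l i, proj h l * e i = e i * proj h l := fun l i =>
    comm_proj h (by simpa using hR.hom (heR i)) l
  have hidem : ∀ l i, (proj h l * e i) * (proj h l * e i) = proj h l * e i := by
    intro l i
    calc (proj h l * e i) * (proj h l * e i) = proj h l * (e i * proj h l) * e i := by
          simp only [mul_assoc]
      _ = proj h l * (proj h l * e i) * e i := by rw [hcomm]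
      _ = (proj h l * proj h l) * (e i * e i) := by simp only [mul_assoc]
      _ = proj h l * e i := by rw [proj_mul_proj, hee]
  choose m hm hm0 using fun l i => trace_idem (hidem l i)
  have hT' : ∀ l i, LinearMap.trace K V (proj h l * e i) =
      LinearMap.trace K V (proj h l * T i) := by
    intro l i
    have := hN _ (heT i) l
    rw [mul_sub, map_sub, sub_eq_zero] at this
    exact this
  -- the trace on the right degree
  have hii : ∀ i, LinearMap.trace K V (proj h i * e i) = LinearMap.trace K V (proj h i) := by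
    intro i
    rw [hT']
    have h1 := hnum i (T i) (hT i)
    have h2 := (hid i).2 1 (by simpa using hR.one)
    rw [mul_one, mul_sub, map_sub, sub_eq_zero] at h2
    have h3 := hnum i 1 hR.one
    rw [mul_one] at h3
    rw [h2, h3, hparproj, hparproj] at h1
    rw [mul_one] at h1
    exact (mul_left_cancel₀ (hpm i) h1).symm
  -- the sum of the numerical projectors
  have hone : NumR h R 0 (∑ i ∈ range (2 * n + 1), T i - 1) := by
    refine ⟨hR.sub (hR.sum fun i _ => hT i) hR.one, fun y hy => ?_⟩
    have hy' : R 0 y := hR.cast hy (by simp)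
    rw [sub_mul, one_mul, mul_sub, map_sub, Finset.sum_mul, Finset.mul_sum, map_sum,
      Finset.sum_congr rfl fun i _ => hnum i y hy', ← map_sum, ← Finset.mul_sum,
      ← Finset.sum_mul, hsum, one_mul, sub_self]
  have hrow : ∀ l, ∑ i ∈ range (2 * n + 1), LinearMap.trace K V (proj h l * e i) =
      LinearMap.trace K V (proj h l) := by
    intro l
    have := hN _ hone l
    rw [mul_sub, mul_one, map_sub, sub_eq_zero, Finset.mul_sum, map_sum] at this
    rw [← this]
    exact Finset.sum_congr rfl fun i _ => hT' l i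
  have hzero : ∀ l ∈ range (2 * n + 1), ∀ i ∈ range (2 * n + 1), i ≠ l → proj h l * e i = 0 := by
    intro l hl i hi hil
    have h1 := hrow l
    rw [← hii l, ← Finset.add_sum_erase _ _ hl, add_eq_left] at h1
    have h2 : ∑ i ∈ (range (2 * n + 1)).erase l, m l i = 0 := by
      have h3 : ((∑ i ∈ (range (2 * n + 1)).erase l, m l i : ℕ) : K) = 0 := by
        rw [← h1]; push_cast
        exact Finset.sum_congr rfl fun i _ => (hm l i).symm
      exact_mod_cast h3
    exact hm0 l i (Finset.sum_eq_zero_iff.1 h2 i (Finset.mem_erase.2 ⟨hil, hi⟩))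
  have hdiag : ∀ i, proj h i * e i = proj h i := by
    intro i
    have h1 : (proj h i * (1 - e i)) * (proj h i * (1 - e i)) = proj h i * (1 - e i) := by
      have hc : (1 - e i) * proj h i = proj h i * (1 - e i) := by
        rw [sub_mul, mul_sub, one_mul, mul_one, hcomm]
      have he : (1 - e i) * (1 - e i) = 1 - e i := by
        rw [mul_sub, sub_mul, sub_mul, one_mul, mul_one, one_mul, hee, sub_self, sub_zero]
      calc (proj h i * (1 - e i)) * (proj h i * (1 - e i)) =
            proj h i * ((1 - e i) * proj h i) * (1 - e i) := by simp only [mul_assoc]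
        _ = proj h i * (proj h i * (1 - e i)) * (1 - e i) := by rw [hc]
        _ = (proj h i * proj h i) * ((1 - e i) * (1 - e i)) := by simp only [mul_assoc]
        _ = proj h i * (1 - e i) := by rw [proj_mul_proj, he]
    obtain ⟨m', hm', hm0'⟩ := trace_idem h1
    have h2 : LinearMap.trace K V (proj h i * (1 - e i)) = 0 := by
      rw [mul_sub, mul_one, map_sub, hii, sub_self]
    rw [hm'] at h2
    have h3 := hm0' (by exact_mod_cast h2)
    rw [mul_sub, mul_one, sub_eq_zero] at h3
    exact h3.symm
  by_cases hi : i ∈ range (2 * n + 1)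
  · have h1 : e i = proj h i := by
      calc e i = (∑ l ∈ range (2 * n + 1), proj h l) * e i := by rw [hsum, one_mul]
        _ = ∑ l ∈ range (2 * n + 1), proj h l * e i := Finset.sum_mul _ _ _
        _ = proj h i * e i := Finset.sum_eq_single i (fun l hl hli => hzero l hl i hi hli.symm)
            fun hh => absurd hi hh
        _ = proj h i := hdiag i
    rw [← h1]; exact heR i
  · have h1 : proj h i = 0 := by
      apply LinearMap.ext
      intro a
      have := proj_mem h i a
      rw [hbd i (by simpa using hi)] at this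
      simpa using this
    rw [h1]; exact hR.zero 0

end Abs

open Pool.Agent.H914 VarClass Obj WeilCohomology

variable {k : Type u} [Field k] {𝒱 : VarClass k} {ops : CycleOps 𝒱}

/-- For each `i` there is a cycle `z` of codimension `n = dim X` on `X × X` which has the same
intersection numbers with all cycles of codimension `n` as the `i`-th Kunneth component of the
diagonal and which is an idempotent up to numerical equivalence: `z ∘ z` is numerically equivalent
to `z`. -/
def KunnethIdem (W : WeilCohomology.{u, v} ops) (X : 𝒱.Obj) : Prop :=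
  ∀ i, ∃ z : (X.prod X).Cycles, (X.prod X).IsCyc X.dim z ∧
    (∀ τ, IsKunnethClass W X i τ → NumRep W (X.prod X) X.dim z τ) ∧
    NumEquiv ops (X.prod X) X.dim (compCyc ops z z) z

variable {W : WeilCohomology.{u, v} ops} {X : 𝒱.Obj}

theorem kunneth_iff_idem : KunnethStd W X ↔ KunnethIdem W X := by
  have h := W.isInternal X
  have hOA := rop_opAlg (W := W) (X := X)
  constructor
  · intro hK i
    obtain ⟨z, hz, hnum, hmul⟩ := kunneth_iff_num.1 hK
    refine ⟨z i, hz i, hnum i, ?_⟩
    have := hmul i i
    rwa [if_pos rfl] at this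
  · intro hI
    choose z hz hnum hmul using hI
    apply kunneth_of_rop
    apply kunneth_of_idem (n := X.dim) hOA h W_hbd (T := fun i => W.corr (W.cl _ (z i)))
      (fun i => rop_corr (by simp) (hz i))
    · intro i
      obtain ⟨τ, hτ, hτi⟩ := exists_class_zero (X := X) (isHom_scal h
        (fun j => if j = i then (1 : W.K) else 0))
      have h1 := hnum i τ ⟨hτ, isProjTo_iff.2 hτi⟩
      rw [numRep_iff (hz i) hτ, hτi] at h1
      exact h1
    · intro i
      have h1 := hmul i
      rw [numEquiv_iff (W := W) (compCyc_mem (hz i) (hz i) rfl) (hz i), corr_compCyc W (hz i)] at h1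
      have h2 := NumR.neg hOA h1
      rw [neg_sub] at h2
      exact h2

/-- For each `i` there is a cycle `z` of codimension `n = dim X` on `X × X` which has the same
intersection numbers with all cycles of codimension `n` as the `i`-th Kunneth component of the
diagonal. -/
def KunnethRep (W : WeilCohomology.{u, v} ops) (X : 𝒱.Obj) : Prop :=
  ∀ i, ∃ z : (X.prod X).Cycles, (X.prod X).IsCyc X.dim z ∧
    ∀ τ, IsKunnethClass W X i τ → NumRep W (X.prod X) X.dim z τ

theorem nilpotent_of_kunnethRep (hX : KunnethRep W X) {x : (X.prod X).Cycles}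
    (hx : (X.prod X).IsCyc X.dim x) (hx0 : NumEquiv ops (X.prod X) X.dim x 0) :
    IsNilpotent (W.corr (W.cl _ x) : Module.End W.K (W.H X)) := by
  have h := W.isInternal X
  have hOA := rop_opAlg (W := W) (X := X)
  choose z hz hnum using hX
  apply nilp_of_rep (n := X.dim) hOA h W_hbd (T := fun i => W.corr (W.cl _ (z i)))
    (fun i => rop_corr (by simp) (hz i))
  · intro i
    obtain ⟨τ, hτ, hτi⟩ := exists_class_zero (X := X) (isHom_scal h
      (fun j => if j = i then (1 : W.K) else 0))
    have h1 := hnum i τ ⟨hτ, isProjTo_iff.2 hτi⟩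
    rw [numRep_iff (hz i) hτ, hτi] at h1
    exact h1
  · rw [numEquiv_iff (W := W) hx (SmVar.IsCyc.zero _ _)] at hx0
    have h2 := NumR.neg hOA hx0
    rw [neg_sub, map_zero, corr_zero, sub_zero] at h2
    exact h2

end Pool.Agent.Q69.KN
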