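import Pool.Agent.Q69.KN.One
import Pool.Agent.Q259.NCSign.Crit

/-!
# The noncommutative sign conjecture and an inequality of traces
-/

set_option autoImplicit false

open CategoryTheory Limits MonoidalCategory

universe v u w

namespace Pool.Agent.Q69.KN

open Pool.Agent.Y112.SR Pool.Agent.Q259.NCSign

variable {C : Type u} [Category.{v} C] [Preadditive C] [Linear ℚ C] [MonoidalCategory C]
  [SymmetricCategory C] [RightRigidCategory C] {K : Type w} [Field K] (R : SuperRealisation C K)

/-- the projector to the even part of the realisation of `M` -/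
noncomputable def evn (M : C) : Module.End K (R.H.obj M) := (2 : K)⁻¹ • (1 + sgn R M)

/-- For all `k` the trace of `z ^ (k + 1)` in the rigid category is the trace of `z ^ k` on the even
part of the realisation. -/
def PowRep (M : C) (z : End M) : Prop := ∀ (k : ℕ) (q : ℚ),
  ctr (z ^ (k + 1) : End M) = q • 𝟙 _ →
    LinearMap.trace K (R.H.obj M) (evn R M * opHom R M (z ^ k)) = q

/-- For all endomorphisms `y` of `M` the trace of `z y` in the rigid category is the trace of `y` on
the even part of the realisation. -/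
def FullRep (M : C) (z : End M) : Prop := ∀ (y : End M) (q : ℚ),
  ctr (z * y : End M) = q • 𝟙 _ →
    LinearMap.trace K (R.H.obj M) (evn R M * opHom R M y) = q

variable {R} {M : C}

theorem powRep_of_fullRep {z : End M} (h : FullRep R M z) : PowRep R M z := fun k q hq =>
  h (z ^ k) q (by rw [← pow_succ']; exact hq)

theorem trace_sgn {f : End M} {q : ℚ} (h : ctr (f : M ⟶ M) = q • 𝟙 _) :
    LinearMap.trace K (R.H.obj M) (sgn R M * opHom R M f) = (q : K) := trace_of_ctr R h

theorem ineq (hunit : ∀ c : 𝟙_ C ⟶ 𝟙_ C, ∃ q : ℚ, c = q • 𝟙 (𝟙_ C)) {z : End M}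
    (hz : PowRep R M z) {a b : ℚ} (ha : ctr (z ^ 2 : End M) = a • 𝟙 _)
    (hb : ctr (z ^ 3 : End M) = b • 𝟙 _) : a ≤ b ∧ (a = b → R.CPlus M) := by
  have hK := R_charZero R
  have h2 : (2 : K) ≠ 0 := two_ne_zero
  have h0 := R.finite M
  set T : Module.End K (R.H.obj M) := opHom R M z with hT
  have hTo : T ∈ ops R M := ⟨z, rfl⟩
  have hTk : ∀ k : ℕ, opHom R M (z ^ k) = T ^ k := fun k => map_pow (opHom R M) z k
  have hpp : evn R M * evn R M = evn R M := half_idem R
  have hsg : sgn R M = evn R M - (1 - evn R M) := by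
    have e : evn R M - (1 - evn R M) = (2 : K) • evn R M - 1 := by rw [two_smul]; abel
    rw [e, evn, two_smul_half]; abel
  have hcomm : Commute T (evn R M) := by
    change T * evn R M = evn R M * T
    rw [evn, mul_smul_comm, smul_mul_assoc, mul_add, add_mul, mul_one, one_mul, sgn_comm R hTo]
  have hn : ∀ k : ℕ, LinearMap.trace K (R.H.obj M) (sgn R M * T ^ (k + 1)) =
      LinearMap.trace K (R.H.obj M) (evn R M * T ^ k) := by
    intro k
    obtain ⟨q, hq⟩ := hunit (ctr (z ^ (k + 1) : End M))
    rw [← hTk, ← hTk, hz k q hq, trace_sgn hq]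
  obtain ⟨t, ht0, ht, key⟩ := traces hpp hcomm (fun k => by
    rw [← map_sub, ← sub_mul, ← hsg, hn])
  have e1 : LinearMap.trace K (R.H.obj M) (evn R M * T ^ 2) = (b : K) := by
    rw [← hTk]; exact hz 2 b hb
  have e2 : LinearMap.trace K (R.H.obj M) (evn R M * T) = (a : K) := by
    have := hz 1 a ha
    rwa [hTk, pow_one] at this
  rw [e1, e2] at ht
  have ht' : b - a = t := by exact_mod_cast ht
  refine ⟨by linarith, fun hab => ?_⟩
  have key := key (by linarith)
  have htr : ∀ m : ℕ, 1 ≤ m → LinearMap.trace K (R.H.obj M) (T ^ m * sgn R M) =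
      (Module.finrank K (LinearMap.ker (sgn R M - 1)) : K) := by
    intro m hm
    obtain ⟨k, rfl⟩ : ∃ k, m = k + 1 := ⟨m - 1, by omega⟩
    have e3 : sgn R M * T ^ (k + 1) = T ^ (k + 1) * sgn R M :=
      (Commute.pow_right (sgn_comm R hTo) _)
    have e5 : LinearMap.trace K (R.H.obj M) (sgn R M * T ^ (k + 1)) =
        LinearMap.trace K (R.H.obj M) (evn R M) := by
      rw [hsg, sub_mul, map_sub, (key k).1, (key k).2, sub_zero]
    rw [← e3, e5]
    exact trace_half R M
  apply cplus_of_traces R
  refine ⟨z, fun m hm => ?_⟩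
  obtain ⟨q, hq⟩ := hunit (ctr (z ^ m : End M))
  rw [hq]
  congr 1
  have h3 := trace_sgn (R := R) hq
  have e4 : sgn R M * T ^ m = T ^ m * sgn R M := (Commute.pow_right (sgn_comm R hTo) _)
  rw [hTk, e4, htr m hm] at h3
  exact_mod_cast h3.symm

theorem eq_of_cplus (hunit : ∀ c : 𝟙_ C ⟶ 𝟙_ C, ∃ q : ℚ, c = q • 𝟙 (𝟙_ C)) {z : End M}
    (hz : FullRep R M z) {a b : ℚ} (ha : ctr (z ^ 2 : End M) = a • 𝟙 _)
    (hb : ctr (z ^ 3 : End M) = b • 𝟙 _) (hC : R.CPlus M) : a = b := by
  have hK := R_charZero R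
  have h2 : (2 : K) ≠ 0 := two_ne_zero
  have h0 := R.finite M
  set T : Module.End K (R.H.obj M) := opHom R M z with hT
  have hTo : T ∈ ops R M := ⟨z, rfl⟩
  have hTk : ∀ k : ℕ, opHom R M (z ^ k) = T ^ k := fun k => map_pow (opHom R M) z k
  set e := evn R M with he
  have hpp : e * e = e := half_idem R
  have hcomm : T * e = e * T := by
    rw [he, evn, mul_smul_comm, smul_mul_assoc, mul_add, add_mul, mul_one, one_mul,
      sgn_comm R hTo]
  obtain ⟨f, hf⟩ := (cplus_iff_hom R).1 hC
  have hfe : opHom R M f = e := by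
    rw [he, evn, ← hf, smul_smul, inv_mul_cancel₀ h2, one_smul]
    rfl
  have hse : sgn R M * e = e := by
    rw [he, evn, mul_smul_comm, mul_add, mul_one, sgn_sq, add_comm]
  have htr : ∀ y : End M, LinearMap.trace K (R.H.obj M) (sgn R M * (T * opHom R M y)) =
      LinearMap.trace K (R.H.obj M) (e * opHom R M y) := by
    intro y
    obtain ⟨q, hq⟩ := hunit (ctr (z * y : End M))
    have e5 : Q259.NCSign.opHom R M (z * y) = T * Q259.NCSign.opHom R M y := by
      rw [hT, RingHom.map_mul]
    rw [hz y q hq, ← trace_sgn (R := R) hq, e5]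
  have hz3 : z * (z * z) = z ^ 3 := by rw [pow_succ, pow_two, mul_assoc]
  have e1 := hz (z * z) b (by rw [hz3]; exact hb)
  have e2 := hz z a (by rw [← ha, pow_two])
  have f1 : LinearMap.trace K (R.H.obj M) (e * opHom R M (z * z)) =
      LinearMap.trace K (R.H.obj M) (e * opHom R M z) := by
    have g1 := htr (z * (show End M from f))
    rw [RingHom.map_mul, hfe, ← hT] at g1
    have g2 : sgn R M * (T * (T * e)) = e * (T * T) := by
      have : sgn R M * T = T * sgn R M := sgn_comm R hTo
      calc sgn R M * (T * (T * e)) = (sgn R M * T) * (T * e) := by rw [mul_assoc]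
        _ = (T * sgn R M) * (T * e) := by rw [this]
        _ = T * ((sgn R M * T) * e) := by simp only [mul_assoc]
        _ = T * ((T * sgn R M) * e) := by rw [this]
        _ = T * (T * (sgn R M * e)) := by simp only [mul_assoc]
        _ = T * (T * e) := by rw [hse]
        _ = e * (T * T) := by rw [hcomm, ← mul_assoc, hcomm, mul_assoc]
    have g3 : e * (T * e) = e * T := by rw [hcomm, ← mul_assoc, hpp]
    rw [g2, g3] at g1
    rw [RingHom.map_mul, ← hT, g1]
  rw [e1, e2] at f1
  exact_mod_cast f1.symm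

/-- a numerical representative exists if `C⁺` holds -/
theorem exists_rep_of_cplus (hC : R.CPlus M) : ∃ z : End M, FullRep R M z := by
  have hK := R_charZero R
  have h2 : (2 : K) ≠ 0 := two_ne_zero
  obtain ⟨f, hf⟩ := (cplus_iff_hom R).1 hC
  refine ⟨f, fun y q hq => ?_⟩
  have hfe : Q259.NCSign.opHom R M f = evn R M := by
    rw [evn, ← hf, smul_smul, inv_mul_cancel₀ h2, one_smul]
    rfl
  have hse : sgn R M * evn R M = evn R M := by
    rw [evn, mul_smul_comm, mul_add, mul_one, sgn_sq, add_comm]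
  have e5 : Q259.NCSign.opHom R M ((show End M from f) * y) =
      evn R M * Q259.NCSign.opHom R M y := by
    rw [RingHom.map_mul, ← hfe]
  rw [← trace_sgn (R := R) hq, e5, ← mul_assoc, hse]

end Pool.Agent.Q69.KN
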