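import Pool.Agent.Q69.KN.Idem

/-!
# Operators with the traces of a projector: one equality of traces suffices
-/

open Finset Polynomial

namespace Pool.Agent.Q69.KN

open Pool.Agent.H914 Pool.Agent.H447 LinearMap

section closed

variable {K : Type*} [Field K] [IsAlgClosed K] {V : Type*} [AddCommGroup V] [Module K V]
  [Module.Finite K V]

theorem trace_formula [CharZero K] (T : Module.End K V) : ∃ S : Finset K, ∀ g : Module.End K V,
    Commute T g → ∃ m : K → K, (∀ k : ℕ, LinearMap.trace K V (g * T ^ k) = ∑ c ∈ S, c ^ k * m c) ∧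
      (g * g = g → ∀ c, ∃ n : ℕ, m c = n) := by
  classical
  have hds := DirectSum.isInternal_submodule_of_iSupIndep_of_iSup_eq_top
    T.independent_maxGenEigenspace (Module.End.iSup_maxGenEigenspace_eq_top T)
  have hfin : {μ | T.maxGenEigenspace μ ≠ ⊥}.Finite :=
    WellFoundedGT.finite_ne_bot_of_iSupIndep T.independent_maxGenEigenspace
  refine ⟨hfin.toFinset, fun g hg => ?_⟩
  refine ⟨fun c => LinearMap.trace K _ (g.restrict (T.mapsTo_maxGenEigenspace_of_comm hg c)),
    fun k => ?_, fun hgg c => ?_⟩
  · have hk : ∀ k : ℕ, Commute T (g * T ^ k) := fun k =>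
      hg.mul_right ((Commute.refl T).pow_right k)
    rw [trace_eq_sum_trace_restrict' hds hfin
      (fun c => T.mapsTo_maxGenEigenspace_of_comm (hk k) c)]
    refine Finset.sum_congr rfl fun c _ => ?_
    induction k with
    | zero => simp
    | succ k ih =>
      have hf' := T.mapsTo_maxGenEigenspace_of_comm (Commute.refl _) c
      have hg' := T.mapsTo_maxGenEigenspace_of_comm (hk k) c
      have h_comm : Commute ((g * T ^ k).restrict hg') (T.restrict hf') :=
        restrict_commute (hk k).symm _ _
      have hnil := T.isNilpotent_restrict_maxGenEigenspace_sub_algebraMap c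
      have e : (g * T ^ (k + 1)).restrict (T.mapsTo_maxGenEigenspace_of_comm (hk (k + 1)) c) =
          (g * T ^ k).restrict hg' ∘ₗ T.restrict hf' := by
        ext x
        simp [pow_succ]
      rw [e, trace_comp_eq_mul_of_commute_of_isNilpotent c h_comm hnil, ih, pow_succ']
      ring
  · have he : g.restrict (T.mapsTo_maxGenEigenspace_of_comm hg c) *
        g.restrict (T.mapsTo_maxGenEigenspace_of_comm hg c) =
        g.restrict (T.mapsTo_maxGenEigenspace_of_comm hg c) := by
      ext x
      have := congrArg (fun f : Module.End K V => f x) hgg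
      simpa using this
    obtain ⟨n, hn, -⟩ := trace_idem he
    exact ⟨n, hn⟩

theorem coeff_zero {S : Finset K} {u : K → K} (h : ∀ k : ℕ, ∑ c ∈ S, c ^ k * u c = 0) :
    ∀ c ∈ S, u c = 0 := by
  classical
  have hg : ∀ g : K[X], ∑ c ∈ S, g.eval c * u c = 0 := by
    intro g
    induction g using Polynomial.induction_on' with
    | add a b ha hb =>
      simp only [eval_add, add_mul, Finset.sum_add_distrib]
      rw [ha, hb, add_zero]
    | monomial k a =>
      simp only [eval_monomial, mul_assoc, ← Finset.mul_sum]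
      rw [h, mul_zero]
  intro c hc
  have h1 := hg (∏ b ∈ S.erase c, (X - C b))
  rw [Finset.sum_eq_single c] at h1
  · refine (mul_eq_zero.1 h1).resolve_left ?_
    rw [eval_prod]
    refine Finset.prod_ne_zero_iff.2 fun b hb => ?_
    rw [eval_sub, eval_X, eval_C, sub_ne_zero]
    exact (Finset.ne_of_mem_erase hb).symm
  · intro b hb hbc
    rw [eval_prod, Finset.prod_eq_zero (i := b) (Finset.mem_erase.2 ⟨hbc, hb⟩) (by simp), zero_mul]
  · intro h; exact absurd hc h

theorem traces_closed [CharZero K] {p T : Module.End K V} (hp : p * p = p) (hc : Commute T p)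
    (h1 : ∀ k : ℕ, LinearMap.trace K V (p * T ^ (k + 1)) -
      LinearMap.trace K V ((1 - p) * T ^ (k + 1)) = LinearMap.trace K V (p * T ^ k)) :
    ∃ t : ℚ, 0 ≤ t ∧ LinearMap.trace K V (p * T ^ 2) - LinearMap.trace K V (p * T) = t ∧
      (t = 0 → ∀ k : ℕ, LinearMap.trace K V (p * T ^ (k + 1)) = LinearMap.trace K V p ∧
        LinearMap.trace K V ((1 - p) * T ^ (k + 1)) = 0) := by
  obtain ⟨S, hS⟩ := trace_formula T
  obtain ⟨m, hm, hmn⟩ := hS p hc
  have hc' : Commute T (1 - p) := (Commute.one_right T).sub_right hc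
  have hp' : (1 - p) * (1 - p) = 1 - p := by
    rw [mul_sub, sub_mul, sub_mul, hp, one_mul, mul_one, one_mul, sub_self, sub_zero]
  obtain ⟨l, hl, hln⟩ := hS (1 - p) hc'
  have hu := coeff_zero (S := S) (u := fun c => c * m c - c * l c - m c) (fun k => by
    have := h1 k
    rw [hm, hl, hm] at this
    have e : ∑ c ∈ S, c ^ k * (c * m c - c * l c - m c) = ∑ c ∈ S, c ^ (k + 1) * m c -
        ∑ c ∈ S, c ^ (k + 1) * l c - ∑ c ∈ S, c ^ k * m c := by
      rw [← Finset.sum_sub_distrib, ← Finset.sum_sub_distrib]
      exact Finset.sum_congr rfl fun c _ => by ring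
    rw [e, this, sub_self])
  choose mn hmn' using hmn hp
  choose ln hln' using hln hp'
  -- the second number
  have h3 : ∑ c ∈ S, (c ^ 2 - c) * m c =
      LinearMap.trace K V (p * T ^ 2) - LinearMap.trace K V (p * T) := by
    have h4 : LinearMap.trace K V (p * T ^ 1) = ∑ c ∈ S, c ^ 1 * m c := hm 1
    rw [pow_one] at h4
    rw [hm 2, h4, ← Finset.sum_sub_distrib]
    exact Finset.sum_congr rfl fun c _ => by ring
  let q : K → ℚ := fun c => (mn c : ℚ) ^ 2 * ln c / ((mn c : ℚ) - ln c) ^ 2
  have hq : ∀ c ∈ S, (c ^ 2 - c) * m c = ((q c : ℚ) : K) := by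
    intro c hcS
    have h5 := hu c hcS
    simp only [hmn', hln'] at h5 ⊢
    by_cases h0 : mn c = 0
    · simp [q, h0]
    · have h6 : (mn c : K) - ln c ≠ 0 := by
        intro h
        apply h0
        have : (mn c : K) = 0 := by linear_combination (-1 : K) * h5 + c * h
        exact_mod_cast this
      have h7 : c = (mn c : K) / ((mn c : K) - ln c) := by
        rw [eq_div_iff h6]; linear_combination h5
      have h8 : ((q c : ℚ) : K) = (mn c : K) ^ 2 * ln c / ((mn c : K) - ln c) ^ 2 := by
        simp [q]
      rw [h8]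
      have h9 : c ^ 2 - c = (mn c : K) * ln c / ((mn c : K) - ln c) ^ 2 := by
        nth_rewrite 1 2 [h7]
        field_simp
        ring
      rw [h9]
      ring
  refine ⟨∑ c ∈ S, q c, Finset.sum_nonneg fun c _ => by positivity, ?_, fun h4 k => ?_⟩
  · rw [← h3]; push_cast
    exact Finset.sum_congr rfl fun c hc => hq c hc
  have hq0 : ∀ c ∈ S, q c = 0 :=
    (Finset.sum_eq_zero_iff_of_nonneg fun c _ => by positivity).1 h4
  have hfin : ∀ c ∈ S, (m c = 0 ∨ (c = 1 ∧ l c = 0)) := by
    intro c hcS
    by_cases h0 : m c = 0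
    · exact Or.inl h0
    · right
      have h5 := hu c hcS
      have h6 := hq c hcS
      rw [hq0 c hcS, Rat.cast_zero] at h6
      have h7 : c * (c - 1) = 0 := by
        have := (mul_eq_zero.1 h6).resolve_right h0
        linear_combination this
      rcases mul_eq_zero.1 h7 with h8 | h8
      · exfalso; apply h0
        rw [h8] at h5 ⊢
        linear_combination -h5
      · have h9 : c = 1 := sub_eq_zero.1 h8
        refine ⟨h9, ?_⟩
        simp only [h9] at h5 ⊢
        linear_combination -h5
  constructor
  · have h4 : LinearMap.trace K V (p * T ^ 0) = ∑ c ∈ S, c ^ 0 * m c := hm 0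
    rw [pow_zero, mul_one] at h4
    rw [hm, h4]
    refine Finset.sum_congr rfl fun c hcS => ?_
    rcases hfin c hcS with h5 | ⟨h5, -⟩
    · rw [h5, mul_zero, mul_zero]
    · rw [h5]; simp
  · rw [hl]
    refine Finset.sum_eq_zero fun c hcS => ?_
    rcases hfin c hcS with h5 | ⟨-, h5⟩
    · have h6 := hu c hcS
      simp only [h5] at h6
      have h7 : c * l c = 0 := by linear_combination -h6
      rw [pow_succ, mul_assoc, h7, mul_zero]
    · rw [h5, mul_zero]

end closed

/-- **One number.** -/
theorem traces {K : Type*} [Field K] [CharZero K] {V : Type*} [AddCommGroup V] [Module K V]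
    [Module.Finite K V] {p T : Module.End K V} (hp : p * p = p) (hc : Commute T p)
    (h1 : ∀ k : ℕ, LinearMap.trace K V (p * T ^ (k + 1)) -
      LinearMap.trace K V ((1 - p) * T ^ (k + 1)) = LinearMap.trace K V (p * T ^ k)) :
    ∃ t : ℚ, 0 ≤ t ∧ LinearMap.trace K V (p * T ^ 2) - LinearMap.trace K V (p * T) = t ∧
      (t = 0 → ∀ k : ℕ, LinearMap.trace K V (p * T ^ (k + 1)) = LinearMap.trace K V p ∧
        LinearMap.trace K V ((1 - p) * T ^ (k + 1)) = 0) := by
  let L := AlgebraicClosure K
  have htr : ∀ f : Module.End K V, LinearMap.trace L (TensorProduct K L V) (f.baseChange L) =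
      algebraMap K L (LinearMap.trace K V f) := fun f => LinearMap.trace_baseChange f L
  have hmul : ∀ f g : Module.End K V, (f * g).baseChange L = f.baseChange L * g.baseChange L :=
    fun f g => LinearMap.baseChange_mul f g
  have hone : (1 : Module.End K V).baseChange L = 1 := LinearMap.baseChange_one _ _
  have hpow : ∀ (f : Module.End K V) (k : ℕ), (f ^ k).baseChange L = f.baseChange L ^ k := by
    intro f k
    induction k with
    | zero => rw [pow_zero, pow_zero, hone]
    | succ k ih => rw [pow_succ, pow_succ, hmul, ih]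
  have hsub : (1 - p : Module.End K V).baseChange L = 1 - p.baseChange L := by
    rw [LinearMap.baseChange_sub, hone]
  have : CharZero L := charZero_of_injective_algebraMap (algebraMap K L).injective
  obtain ⟨t, ht0, ht, hk⟩ := traces_closed (K := L) (V := TensorProduct K L V)
    (p := p.baseChange L) (T := T.baseChange L) (by rw [← hmul, hp]) (by
      change _ * _ = _ * _
      rw [← hmul, ← hmul, hc.eq]) (fun k => by
      rw [← hsub, ← hpow, ← hpow, ← hmul, ← hmul, ← hmul, htr, htr, htr, ← map_sub, h1])
  refine ⟨t, ht0, (algebraMap K L).injective ?_, fun h0 k => ?_⟩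
  · rw [← hpow, ← hmul, ← hmul, htr, htr, ← map_sub] at ht
    rw [ht, map_ratCast]
  · have := hk h0 k
    rw [← hsub, ← hpow, ← hmul, ← hmul, htr, htr, htr] at this
    refine ⟨(algebraMap K L).injective this.1, (algebraMap K L).injective ?_⟩
    rw [this.2, map_zero]

end Pool.Agent.Q69.KN
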