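import Pool.Agent.Q69.KN.One

/-!
# The sign conjecture and one equality of intersection numbers
-/

open CategoryTheory AlgebraicGeometry Finset Polynomial

universe u v

namespace Pool.Agent.Q69.KN

open Pool.Agent.H914 Pool.Agent.H447

section Abs

variable {K : Type*} [Field K] [CharZero K] {V : Type*} [AddCommGroup V] [Module K V]
  [Module.Finite K V] {gr : ℕ → Submodule K V} {n : ℕ} {R : ℤ → Module.End K V → Prop}

lemma evenProj_mul_self (h : DirectSum.IsInternal gr) :
    evenProj h * evenProj h = evenProj h := by
  rw [evenProj, scal_mul]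
  congr 1
  funext i
  split_ifs <;> simp

/-- The even projector and a numerical representative: an inequality of traces. -/
theorem even_number (hR : OpAlg gr R) (h : DirectSum.IsInternal gr) {T : Module.End K V}
    (hT : R 0 T) (hnum : ∀ y, R 0 y → LinearMap.trace K V (par h * (T * y)) =
      LinearMap.trace K V (par h * (evenProj h * y))) :
    ∃ t : ℚ, 0 ≤ t ∧ LinearMap.trace K V (par h * (T * (T * T))) -
      LinearMap.trace K V (par h * (T * T)) = t ∧ (t = 0 ↔ R 0 (evenProj h)) := by
  have hTh : IsHom gr 0 T := by simpa using hR.hom hT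
  have hTk : ∀ k : ℕ, R 0 (T ^ k) := fun k => hR.cast (hR.pow hT k) (by simp)
  set p := evenProj h with hp
  have hpp : p * p = p := evenProj_mul_self h
  have hcomm : Commute T p := by
    have := hTh.scal_comm h (fun i => if Even i.toNat then (1 : K) else 0)
      (fun i => if Even i.toNat then (1 : K) else 0) (fun i => by rw [add_zero])
    simp only [Int.toNat_natCast] at this
    exact this.symm
  have hpar : ∀ y, LinearMap.trace K V (par h * y) =
      LinearMap.trace K V (p * y) - LinearMap.trace K V ((1 - p) * y) := by
    intro y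
    have e : par h * y = par h * p * y + par h * (1 - p) * y := by
      rw [← add_mul, ← mul_add, add_sub_cancel, mul_one]
    rw [e, hp, par_evenProj, par_one_sub_evenProj, map_add, smul_mul_assoc, map_smul,
      smul_eq_mul]
    ring
  have hn : ∀ k : ℕ, LinearMap.trace K V (par h * T ^ (k + 1)) =
      LinearMap.trace K V (p * T ^ k) := by
    intro k
    rw [pow_succ', hnum _ (hTk k), ← mul_assoc, hp, par_evenProj]
  obtain ⟨t, ht0, ht, key⟩ := traces hpp hcomm (fun k => by rw [← hpar, hn])
  have e1 : LinearMap.trace K V (par h * (T * (T * T))) = LinearMap.trace K V (p * T ^ 2) := by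
    rw [← hn 2, pow_succ', pow_two]
  have e2 : LinearMap.trace K V (par h * (T * T)) = LinearMap.trace K V (p * T) := by
    rw [← pow_two, hn 1, pow_one]
  refine ⟨t, ht0, by rw [e1, e2, ht], fun h0 => ?_, fun hE => ?_⟩
  · have key := key h0
    obtain ⟨g, hg⟩ := exists_poly_of_proj hpp hcomm (par_evenProj h) (par_one_sub_evenProj h)
      (by norm_num) (fun k => by rw [hn, ← mul_assoc, hp, par_evenProj]) (fun k hk => by
        obtain ⟨k, rfl⟩ : ∃ k', k = k' + 1 := ⟨k - 1, by omega⟩
        rw [hpar, hpar, (key (k + 1)).1, (key (k + 1)).2, (key k).1, (key k).2])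
    rw [hg]
    exact hR.ev hT g
  · -- both numbers are the even Betti number
    have hmulR : ∀ {x y : Module.End K V}, R 0 x → R 0 y → R 0 (x * y) := fun hx hy =>
      hR.cast (hR.mul hx hy) (by simp)
    have f1 : LinearMap.trace K V (par h * (T * (T * T))) = LinearMap.trace K V (par h * p) := by
      calc LinearMap.trace K V (par h * (T * (T * T))) =
            LinearMap.trace K V (par h * (p * (T * T))) := hnum _ (hmulR hT hT)
        _ = LinearMap.trace K V (par h * (T * (T * p))) := by
            rw [← mul_assoc p, ← hcomm.eq, mul_assoc, ← hcomm.eq]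
        _ = LinearMap.trace K V (par h * (p * (T * p))) := hnum _ (hmulR hT hE)
        _ = LinearMap.trace K V (par h * (T * p)) := by
            rw [← mul_assoc p, ← hcomm.eq, mul_assoc, hpp]
        _ = LinearMap.trace K V (par h * (p * p)) := hnum _ hE
        _ = LinearMap.trace K V (par h * p) := by rw [hpp]
    have f2 : LinearMap.trace K V (par h * (T * T)) = LinearMap.trace K V (par h * p) := by
      calc LinearMap.trace K V (par h * (T * T)) =
            LinearMap.trace K V (par h * (p * T)) := hnum _ hT
        _ = LinearMap.trace K V (par h * (T * p)) := by rw [hcomm.eq]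
        _ = LinearMap.trace K V (par h * (p * p)) := hnum _ hE
        _ = LinearMap.trace K V (par h * p) := by rw [hpp]
    rw [← e1, ← e2, f1, f2, sub_self] at ht
    exact_mod_cast ht.symm

end Abs

open Pool.Agent.H914 VarClass Obj WeilCohomology

variable {k : Type u} [Field k] {𝒱 : VarClass k} {ops : CycleOps 𝒱}

variable {W : WeilCohomology.{u, v} ops} {X : 𝒱.Obj}

/-- the intersection number of `z` with the transpose of `z ∘ z` -/
noncomputable def cubeNumber (ops : CycleOps 𝒱) (X : 𝒱.Obj) (z : (X.prod X).Cycles) : ℚ :=
  (X.prod X).V.degCycle (ops.mul z (ops.pull (swap X X) (compCyc ops z z)))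

/-- the intersection number of `z` with the transpose of `z` -/
noncomputable def squareNumber (ops : CycleOps 𝒱) (X : 𝒱.Obj) (z : (X.prod X).Cycles) : ℚ :=
  (X.prod X).V.degCycle (ops.mul z (ops.pull (swap X X) z))

theorem sign_number {z : (X.prod X).Cycles} (hz : (X.prod X).IsCyc X.dim z)
    (hnum : ∀ τ, IsEvenClass W X τ → NumRep W (X.prod X) X.dim z τ) :
    squareNumber ops X z ≤ cubeNumber ops X z ∧
      (squareNumber ops X z = cubeNumber ops X z ↔ SignStd W X) := by
  have h := W.isInternal X
  have hOA := rop_opAlg (W := W) (X := X)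
  have hzz : (X.prod X).IsCyc X.dim (compCyc ops z z) := compCyc_mem hz hz rfl
  obtain ⟨t, ht0, ht, hiff⟩ := even_number hOA h (T := W.corr (W.cl _ z))
    (rop_corr (by simp) hz) (by
      obtain ⟨τ, hτ, hτi⟩ := exists_class_zero (X := X) (isHom_scal h
        (fun j => if Even j then (1 : W.K) else 0))
      have h1 := hnum τ ⟨hτ, isEvenProj_iff.2 hτi⟩
      rw [numRep_iff hz hτ, hτi] at h1
      exact h1)
  have h2 := str_eq_deg (W := W) (p := X.dim) (q := X.dim) (by omega) hz hzz
  have h3 := str_eq_deg (W := W) (p := X.dim) (q := X.dim) (by omega) hz hz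
  rw [corr_compCyc W hz] at h2
  have h4 : cubeNumber ops X z - squareNumber ops X z = t := by
    have h5 : ((cubeNumber ops X z - squareNumber ops X z : ℚ) : W.K) = t := by
      rw [← ht]
      push_cast
      rw [cubeNumber, squareNumber, ← h2, ← h3]
      rfl
    exact_mod_cast h5
  have h6 : SignStd W X ↔ ROp W X 0 (evenProj h) := by
    constructor
    · rintro ⟨P, hP, hP'⟩
      rw [isEvenProj_iff] at hP'
      rw [← hP']
      exact rop_corr (by simp) hP
    · intro hE
      obtain ⟨P, hP, hP'⟩ := exists_of_rop (p := X.dim) (by simp) hE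
      exact ⟨P, hP, isEvenProj_iff.2 hP'⟩
  refine ⟨by linarith, ?_⟩
  rw [h6, ← hiff]
  constructor
  · intro h7; linarith
  · intro h7; linarith

/-- There is a cycle `z` of codimension `n = dim X` on `X × X` which has the same intersection
numbers with all cycles of codimension `n` as the class inducing the projector onto the even
cohomology, and for which the intersection numbers of `z` with the transpose of `z ∘ z` and with the
transpose of `z` are equal. -/
def SignOne (W : WeilCohomology.{u, v} ops) (X : 𝒱.Obj) : Prop :=
  ∃ z : (X.prod X).Cycles, (X.prod X).IsCyc X.dim z ∧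
    (∀ τ, IsEvenClass W X τ → NumRep W (X.prod X) X.dim z τ) ∧
    squareNumber ops X z = cubeNumber ops X z

theorem sign_iff_one : SignStd W X ↔ SignOne W X := by
  constructor
  · intro hS
    obtain ⟨z, hz, hnum, -⟩ := sign_iff_num.1 hS
    exact ⟨z, hz, hnum, (sign_number hz hnum).2.2 hS⟩
  · rintro ⟨z, hz, hnum, hone⟩
    exact (sign_number hz hnum).2.1 hone

end Pool.Agent.Q69.KN
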